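import Pool.Agent.Run7.h408.EF.Stm
import Pool.Agent.Y708.QE.Gr

/-!
# Project EF: the piece `StCmp` (comparison of integrals over a surface)
-/

set_option autoImplicit false

open Set Filter Topology MeasureTheory
open scoped Real ContDiff ENNReal
open Pool.Agent.Y262.QE Pool.Agent.Y264.QR

noncomputable section

namespace Pool.Agent.Run7.h586.EF

open Pool.Agent.Run7.h408.EF Pool.Agent.Y708.QE

/-- a sum over the disjoint pieces -/
theorem sum_pc {M : Type} [MetricSpace M] [CompactSpace M] [MeasurableSpace M] [BorelSpace M]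
    {μ : Measure M} {D : Data M} {A : Fin D.N → ℂ → ℂ →L[ℝ] ℂ} (hD : (wth D A).IsSurf μ)
    (G : M → ℝ≥0∞) (hG : Measurable G) :
    ∫⁻ x, G x ∂μ = ∑ i : Fin D.N, ∫⁻ x in D.pc i, G x ∂μ := by
  have hpm : ∀ i, MeasurableSet (D.pc i) := fun i => pc_meas hD i
  have h1 : ∀ x, G x = ∑ i : Fin D.N, (D.pc i).indicator G x := by
    intro x
    obtain ⟨i, hi⟩ : ∃ i, x ∈ D.pc i := pc_ex hD x
    rw [Finset.sum_eq_single i]
    · exact (Set.indicator_of_mem hi _).symm
    · intro j _ hj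
      exact Set.indicator_of_notMem (fun h => hj (pc_disj h hi)) _
    · intro h
      exact absurd (Finset.mem_univ i) h
  calc ∫⁻ x, G x ∂μ = ∫⁻ x, ∑ i : Fin D.N, (D.pc i).indicator G x ∂μ := lintegral_congr h1
    _ = ∑ i : Fin D.N, ∫⁻ x, (D.pc i).indicator G x ∂μ :=
        lintegral_finsetSum _ fun i _ => hG.indicator (hpm i)
    _ = ∑ i : Fin D.N, ∫⁻ x in D.pc i, G x ∂μ :=
        Finset.sum_congr rfl fun i _ => lintegral_indicator (hpm i) G

theorem stCmp (hI : StInt) (hF : StFin) : StCmp := by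
  intro M _ _ _ _ μ μ' D A A' hD hD' g g' hg hg' hC hg0 hle
  obtain ⟨C, hC⟩ := hC
  have : IsFiniteMeasure μ' := (hF M μ' _ hD').1
  have hpm : ∀ i, MeasurableSet (D.pc i) := fun i => pc_meas hD i
  have hg0' : ∀ x, 0 ≤ g' x := by
    intro x
    obtain ⟨i, hi⟩ : ∃ i, x ∈ D.pc i := pc_ex hD x
    have h1 := hle i x hi
    have h2 : 0 < |(A' i (D.φ i x)).det| := abs_pos.2 (hD'.det i _ ⟨x, hi.1, rfl⟩)
    have h3 : 0 ≤ |(A i (D.φ i x)).det| * g x := mul_nonneg (abs_nonneg _) (hg0 x)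
    by_contra hc
    push Not at hc
    have h4 : |(A' i (D.φ i x)).det| * g' x < 0 := mul_neg_of_pos_of_neg h2 hc
    linarith
  have hmain : ∫⁻ x, ENNReal.ofReal (g x) ∂μ ≤ ∫⁻ x, ENNReal.ofReal (g' x) ∂μ' := by
    rw [sum_pc hD _ hg.ennreal_ofReal, sum_pc hD' _ hg'.ennreal_ofReal]
    refine Finset.sum_le_sum fun i _ => ?_
    have hsub : D.pc i ∩ D.U i = D.pc i := inter_eq_left.2 fun x hx => hx.1
    have e1 : ∫⁻ x in D.pc i, ENNReal.ofReal (g x) ∂μ =
        ∫⁻ x in D.U i, (D.pc i).indicator (fun x => ENNReal.ofReal (g x)) x ∂μ := by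
      rw [setLIntegral_indicator (hpm i), hsub]
    have e2 : ∫⁻ x in D.pc i, ENNReal.ofReal (g' x) ∂μ' =
        ∫⁻ x in D.U i, (D.pc i).indicator (fun x => ENNReal.ofReal (g' x)) x ∂μ' := by
      rw [setLIntegral_indicator (hpm i), hsub]
    have e3 := (hI M μ _ hD i).1 ((D.pc i).indicator (fun x => ENNReal.ofReal (g x)))
      (hg.ennreal_ofReal.indicator (hpm i))
    have e4 := (hI M μ' _ hD' i).1 ((D.pc i).indicator (fun x => ENNReal.ofReal (g' x)))
      (hg'.ennreal_ofReal.indicator (hpm i))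
    have goal : ∫⁻ x in D.U i, (D.pc i).indicator (fun x => ENNReal.ofReal (g x)) x ∂μ ≤
        ∫⁻ x in D.U i, (D.pc i).indicator (fun x => ENNReal.ofReal (g' x)) x ∂μ' := by
      refine (le_of_eq e3).trans (le_trans ?_ (le_of_eq e4.symm))
      refine setLIntegral_mono' (hD.openT i).measurableSet fun z hz => ?_
      obtain ⟨x, hx, rfl⟩ := hz
      have hψ : (wth D A).ψ i ((wth D A).φ i x) = x := hD.left i x hx
      have hψ' : (wth D A').ψ i ((wth D A).φ i x) = x := hD'.left i x hx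
      rw [hψ, hψ']
      by_cases hxp : x ∈ D.pc i
      · rw [Set.indicator_of_mem hxp, Set.indicator_of_mem hxp, ← ENNReal.ofReal_mul (hg0 x),
          ← ENNReal.ofReal_mul (hg0' x)]
        refine ENNReal.ofReal_le_ofReal ?_
        have := hle i x hxp
        rw [mul_comm (g x), mul_comm (g' x)]
        exact this
      · rw [Set.indicator_of_notMem hxp, zero_mul]
        exact zero_le
    rw [e1, e2]
    exact goal
  have hi' : Integrable g' μ' :=
    (integrable_const C).mono' hg'.aestronglyMeasurable (ae_of_all _ fun x => by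
      rw [Real.norm_eq_abs]; exact hC x)
  have hfin : ∫⁻ x, ENNReal.ofReal (g' x) ∂μ' ≠ ⊤ := hi'.lintegral_lt_top.ne
  rw [integral_eq_lintegral_of_nonneg_ae (ae_of_all _ hg0) hg.aestronglyMeasurable,
    integral_eq_lintegral_of_nonneg_ae (ae_of_all _ hg0') hg'.aestronglyMeasurable]
  exact ENNReal.toReal_mono hfin hmain

end Pool.Agent.Run7.h586.EF
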