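import Pool.Agent.Run7.h408.EF.Stm
import Pool.Agent.Y708.QE.Gr

/-!
# Project EF: the piece `StFld` (tensor fields on surfaces)
-/

set_option autoImplicit false

open Set Filter Topology MeasureTheory
open scoped Real ContDiff
open Pool.Agent.Y262.QE Pool.Agent.Y264.QR

noncomputable section

namespace Pool.Agent.Run7.h586.EF

open Pool.Agent.Run7.h408.EF Pool.Agent.Y708.QE

section

variable {M : Type} {D : Data M} {A : Fin D.N → ℂ → ℂ →L[ℝ] ℂ} {h : Tn D}

theorem fld_eq {i : Fin D.N} {x : M} (hi : x ∈ D.pc i) (v w : ℂ) :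
    fld D A h v w x = h i (D.φ i x) ((A i (D.φ i x)).inverse v) ((A i (D.φ i x)).inverse w) := by
  unfold fld
  rw [Finset.sum_eq_single i]
  · exact Set.indicator_of_mem hi _
  · intro j _ hj
    exact Set.indicator_of_notMem (fun h => hj (pc_disj h hi)) _
  · intro h
    exact absurd (Finset.mem_univ i) h

variable [MetricSpace M] [CompactSpace M] [MeasurableSpace M] [BorelSpace M] {μ : Measure M}

theorem pcx (hD : (wth D A).IsSurf μ) (x : M) : ∃ i, x ∈ D.pc i := pc_ex hD x

theorem fld_meas (hD : (wth D A).IsSurf μ) {K : ℝ} (hh : IsTn D A h K) (v w : ℂ) :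
    Measurable (fld D A h v w) := by
  classical
  unfold fld
  refine Finset.measurable_sum _ fun i _ => ?_
  rw [← Set.piecewise_eq_indicator]
  have hm : MapsTo (D.φ i) (D.U i) (D.T i) := fun x hx => ⟨x, hx, rfl⟩
  have hA : ContinuousOn (fun x => A i (D.φ i x)) (D.U i) := (hD.contA i).comp (hD.contφ i) hm
  have hinv : ContinuousOn (fun x => (A i (D.φ i x)).inverse) (D.U i) := by
    intro x hx
    have hdet : (A i (D.φ i x)).det ≠ 0 := hD.det i _ (hm hx)
    have h1 := contDiffAt_map_inverse (𝕜 := ℝ) (n := 0)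
      ((A i (D.φ i x)).toContinuousLinearEquivOfDetNeZero hdet)
    rw [(A i (D.φ i x)).coe_toContinuousLinearEquivOfDetNeZero hdet] at h1
    have h2 : ContinuousAt ContinuousLinearMap.inverse (A i (D.φ i x)) := h1.continuousAt
    exact ContinuousAt.comp_continuousWithinAt
      (g := (ContinuousLinearMap.inverse : (ℂ →L[ℝ] ℂ) → ℂ →L[ℝ] ℂ))
      (f := fun x => A i (D.φ i x)) h2 (hA x hx)
  have hc : ContinuousOn (fun x => h i (D.φ i x)) (D.U i) := (hh.cont i).comp (hD.contφ i) hm
  have hf : ContinuousOn (fun x => h i (D.φ i x) ((A i (D.φ i x)).inverse v)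
      ((A i (D.φ i x)).inverse w)) (D.U i) :=
    (hc.clm_apply (hinv.clm_apply continuousOn_const)).clm_apply
      (hinv.clm_apply continuousOn_const)
  exact ContinuousOn.measurable_piecewise (hf.mono fun x hx => hx.1) continuousOn_const
    (pc_meas hD i)

theorem fld_quad (hD : (wth D A).IsSurf μ) {K : ℝ} (hh : IsTn D A h K) (v : ℂ) (x : M) :
    fld D A h v v x = fld D A h 1 1 x * v.re ^ 2 +
      2 * fld D A h 1 Complex.I x * (v.re * v.im) + fld D A h Complex.I Complex.I x * v.im ^ 2 := by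
  obtain ⟨i, hi⟩ := pcx hD x
  simp only [fld_eq hi]
  have hv : v = v.re • (1 : ℂ) + v.im • Complex.I := by
    apply Complex.ext <;> simp
  have hs := hh.symm i (D.φ i x) ((A i (D.φ i x)).inverse Complex.I) ((A i (D.φ i x)).inverse 1)
  conv_lhs => rw [hv]
  simp only [map_add, map_smul, _root_.add_apply, _root_.smul_apply, smul_eq_mul]
  rw [hs]
  ring

theorem fld_bd (hD : (wth D A).IsSurf μ) {K : ℝ} (hh : IsTn D A h K) (v : ℂ) (x : M) :
    |fld D A h v v x| ≤ K * ‖v‖ ^ 2 := by
  obtain ⟨i, hi⟩ := pcx hD x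
  rw [fld_eq hi]
  have hT : D.φ i x ∈ D.T i := ⟨x, hi.1, rfl⟩
  have h1 := hh.bdd i _ hT ((A i (D.φ i x)).inverse v)
  have hdet : (A i (D.φ i x)).det ≠ 0 := hD.det i _ hT
  rwa [inv_apply hdet] at h1

end

theorem stFld : StFld := by
  intro M _ _ _ _ μ D A hD h K hh
  have hsym : ∀ v w x, fld D A h v w x = fld D A h w v x := by
    intro v w x
    obtain ⟨i, hi⟩ := pcx hD x
    rw [fld_eq hi, fld_eq hi]
    exact hh.symm i _ _ _
  have hq := fld_quad hD hh
  have hb := fld_bd hD hh
  have hm := fld_meas hD hh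
  have h11 : ∀ x, |fld D A h 1 1 x| ≤ K := by
    intro x
    have := hb 1 x
    simpa using this
  have hII : ∀ x, |fld D A h Complex.I Complex.I x| ≤ K := by
    intro x
    have := hb Complex.I x
    simpa using this
  refine ⟨hm, hsym, hb, fun x => ?_, fun x => ?_, hq, ?_⟩
  · unfold trc
    have h1 := h11 x
    have h2 := hII x
    calc |fld D A h 1 1 x + fld D A h Complex.I Complex.I x|
        ≤ |fld D A h 1 1 x| + |fld D A h Complex.I Complex.I x| := abs_add_le _ _
      _ ≤ 2 * K := by linarith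
  · have h1 := abs_le.1 (h11 x)
    have h2 := abs_le.1 (hII x)
    have h3 := hq ⟨1, 1⟩ x
    have h4 := hb ⟨1, 1⟩ x
    have h5 : ‖(⟨1, 1⟩ : ℂ)‖ ^ 2 = 2 := by
      rw [Complex.sq_norm, Complex.normSq_mk]
      norm_num
    rw [h5] at h4
    have h6 := abs_le.1 h4
    simp only [one_pow, mul_one] at h3
    rw [abs_le]
    constructor <;> linarith [h6.1, h6.2, h1.1, h1.2, h2.1, h2.2]
  · have he : (fun p : M × ℂ => fld D A h p.2 p.2 p.1) = fun p : M × ℂ =>
        fld D A h 1 1 p.1 * p.2.re ^ 2 + 2 * fld D A h 1 Complex.I p.1 * (p.2.re * p.2.im) +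
          fld D A h Complex.I Complex.I p.1 * p.2.im ^ 2 := by
      funext p
      exact hq p.2 p.1
    rw [he]
    have m1 : Measurable fun p : M × ℂ => fld D A h 1 1 p.1 := (hm 1 1).comp measurable_fst
    have m2 : Measurable fun p : M × ℂ => fld D A h 1 Complex.I p.1 :=
      (hm 1 Complex.I).comp measurable_fst
    have m3 : Measurable fun p : M × ℂ => fld D A h Complex.I Complex.I p.1 :=
      (hm Complex.I Complex.I).comp measurable_fst
    have m4 : Measurable fun p : M × ℂ => p.2.re := Complex.measurable_re.comp measurable_snd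
    have m5 : Measurable fun p : M × ℂ => p.2.im := Complex.measurable_im.comp measurable_snd
    exact ((m1.mul (m4.pow_const 2)).add ((m2.const_mul 2).mul (m4.mul m5))).add
      (m3.mul (m5.pow_const 2))

end Pool.Agent.Run7.h586.EF
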